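import Pool.Agent.Helper12.GM.LibF

/-!
# Module GEO : a Fuchsian representation gives an abstract length function
-/

open scoped ENNReal UpperHalfPlane MatrixGroups Topology
open UpperHalfPlane Real Filter

namespace Pool.Agent.Helper12.GM

theorem geo_nsq_neg (A : Matrix (Fin 2) (Fin 2) ℝ) : nsq (-A) = nsq A := by
  unfold nsq
  simp only [Matrix.neg_apply]
  ring

theorem geo_M3 {Γ : Type} [Group Γ] (X : Fuchs Γ) (g f h : Γ) :
    nsq (X.M (g * f * h)).1 = nsq ((X.M g).1 * (X.M f).1 * (X.M h).1) := by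
  have key : (X.M (g * f * h)).1 = (X.M g).1 * (X.M f).1 * (X.M h).1 ∨
      (X.M (g * f * h)).1 = -((X.M g).1 * (X.M f).1 * (X.M h).1) := by
    rcases X.mul' (g * f) h with h1 | h1 <;> rcases X.mul' g f with h2 | h2
    · left; rw [h1, h2]; rfl
    · right
      rw [h1, h2]
      show (-((X.M g).1 * (X.M f).1)) * (X.M h).1 = _
      rw [Matrix.neg_mul]
    · right; rw [h1, h2]; rfl
    · left
      rw [h1, h2]
      show -((-((X.M g).1 * (X.M f).1)) * (X.M h).1) = _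
      rw [Matrix.neg_mul, neg_neg]
  rcases key with h1 | h1
  · rw [h1]
  · rw [h1, geo_nsq_neg]

theorem geo_conn {Γ : Type} [Group Γ] (hNORM : ST_NORM) (X : Fuchs Γ) {c : ℝ} (hc : 0 < c)
    {g f h : Γ}
    (hf : c * (nsq (X.M g).1 * nsq (X.M h).1) ≤ nsq ((X.M g).1 * (X.M f).1 * (X.M h).1)) :
    X.L g + X.L h ≤ X.L (g * f * h) + Real.log (2 / c) := by
  have hlow : ∀ x, Real.exp (X.L x) ≤ nsq (X.M x).1 := by
    intro x
    rw [← hNORM (X.M x), Real.cosh_eq]
    have : 0 < Real.exp (-(dist (I : ℍ) (X.M x • (I : ℍ)))) := Real.exp_pos _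
    show Real.exp (dist (I : ℍ) (X.M x • (I : ℍ))) ≤ _
    linarith
  have hup : ∀ x, nsq (X.M x).1 ≤ 2 * Real.exp (X.L x) := by
    intro x
    rw [← hNORM (X.M x), Real.cosh_eq]
    have h1 : Real.exp (-(dist (I : ℍ) (X.M x • (I : ℍ)))) ≤
        Real.exp (dist (I : ℍ) (X.M x • (I : ℍ))) := by
      apply Real.exp_le_exp.2
      have : 0 ≤ dist (I : ℍ) (X.M x • (I : ℍ)) := dist_nonneg
      linarith
    show _ ≤ 2 * Real.exp (dist (I : ℍ) (X.M x • (I : ℍ)))
    linarith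
  have h1 : c * (Real.exp (X.L g) * Real.exp (X.L h)) ≤ 2 * Real.exp (X.L (g * f * h)) := by
    have h2 : Real.exp (X.L g) * Real.exp (X.L h) ≤ nsq (X.M g).1 * nsq (X.M h).1 :=
      mul_le_mul (hlow g) (hlow h) (Real.exp_pos _).le ((Real.exp_pos _).le.trans (hlow g))
    have h3 := hup (g * f * h)
    rw [geo_M3] at h3
    calc c * (Real.exp (X.L g) * Real.exp (X.L h)) ≤ c * (nsq (X.M g).1 * nsq (X.M h).1) :=
          mul_le_mul_of_nonneg_left h2 hc.le
      _ ≤ _ := hf.trans h3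
  rw [← Real.exp_add] at h1
  have h4 : Real.exp (X.L g + X.L h) ≤ Real.exp (X.L (g * f * h) + Real.log (2 / c)) := by
    rw [Real.exp_add (X.L (g * f * h)), Real.exp_log (by positivity), mul_div_assoc',
      le_div_iff₀ hc]
    linarith
  exact Real.exp_le_exp.1 h4

theorem st_GEO (hFOUR : ST_FOUR) (hGEODH : ST_GEODH) (hNORM : ST_NORM) (hUPPER : ST_UPPER)
    (hLOWER : ST_LOWER) (hCONN : ST_CONN) : ST_GEO := by
  intro Γ _ X
  obtain ⟨Cu, hCu1, hCu⟩ := hUPPER X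
  obtain ⟨Cl, hCl1, hCl⟩ := hLOWER X
  obtain ⟨F, c, hc, hF⟩ := hCONN X
  obtain ⟨R, hR⟩ := X.cocpt
  have hlog2 : 0 ≤ Real.log 2 := Real.log_nonneg (by norm_num)
  have hR0 := abs_nonneg R
  have hR1 := le_abs_self R
  have hc0 := abs_nonneg (Real.log (2 / c))
  have hc1 := le_abs_self (Real.log (2 / c))
  let C : ℝ := Cu + Cl + |R| + |Real.log (2 / c)| + 8 * Real.log 2 + 6
  have hC : C = Cu + Cl + |R| + |Real.log (2 / c)| + 8 * Real.log 2 + 6 := rfl
  refine ⟨⟨X.L, C, F, by linarith, X.L_one, X.L_nonneg, X.L_inv, X.L_mul, ?_, ?_, X.disc, ?_, ?_,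
    ?_⟩, rfl⟩
  · intro x y z w
    have h := hFOUR (X.M x • I) (X.M y • I) (X.M z • I) (X.M w • I)
    simp only [X.dist_orbit] at h
    linarith
  · intro g t ht htg
    obtain ⟨q, hq1, hq2⟩ := hGEODH I (X.M g • I) t ht htg
    obtain ⟨k, hk⟩ := hR q
    refine ⟨k, ?_, ?_⟩
    · have h1 : X.L k ≤ dist (I : ℍ) q + dist q (X.M k • (I : ℍ)) := dist_triangle _ _ _
      linarith
    · rw [← X.dist_orbit]
      have h1 := dist_triangle (X.M k • (I : ℍ)) q (X.M g • (I : ℍ))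
      rw [dist_comm (X.M k • (I : ℍ)) q] at h1
      have h2 : X.L g = dist (I : ℍ) (X.M g • (I : ℍ)) := rfl
      linarith
  · intro t ht
    refine (hCu t ht).trans ?_
    exact mul_le_mul_of_nonneg_right (by linarith) (Real.exp_pos _).le
  · intro t ht
    refine (hCl t ht).trans ?_
    have h1 : ({g | t - Cl ≤ X.L g ∧ X.L g ≤ t + Cl}.ncard : ℝ) ≤
        ({g | t - C ≤ X.L g ∧ X.L g ≤ t + C}.ncard : ℝ) := by
      have hsub : {g | t - Cl ≤ X.L g ∧ X.L g ≤ t + Cl} ⊆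
          {g | t - C ≤ X.L g ∧ X.L g ≤ t + C} := by
        rintro g ⟨h2, h3⟩
        exact ⟨by linarith, by linarith⟩
      have hfin : {g | t - C ≤ X.L g ∧ X.L g ≤ t + C}.Finite :=
        (X.disc (t + C)).subset fun g hg => hg.2
      exact_mod_cast Set.ncard_le_ncard hsub hfin
    exact mul_le_mul (by linarith) h1 (by positivity) (by linarith)
  · intro g h
    obtain ⟨f, hf, hfc⟩ := hF (X.M g).1 (X.M h).1
    refine ⟨f, hf, ?_⟩
    have h1 := geo_conn hNORM X hc hfc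
    linarith

end Pool.Agent.Helper12.GM
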