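import Pool.Agent.Helper12.GM.LibF
import Pool.Agent.Helper12.GM.Lib

/-!
# Module SHIFT : the hitting kernels of the shifted walls
-/

open scoped ENNReal UpperHalfPlane MatrixGroups Topology
open UpperHalfPlane Real Filter

namespace Pool.Agent.Helper12.GM

theorem st_SHIFT (hCINV : ST_CINV) : ST_SHIFT := by
  intro Γ _ X μ κ a k x y x' y' hx hy
  unfold kr
  have h1 : (X.c ^ k * a * X.c ^ (-k))⁻¹ * (x' : Γ) = X.c ^ k * (a⁻¹ * x) := by
    rw [hx, zpow_neg]
    group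
  have h2 : {z | (X.c ^ k)⁻¹ * z ∈ Lft X.toFuchs κ} = Lft X.toFuchs κ := by
    ext z
    have h3 := (hCINV X κ (-k) z).2.2.1
    rw [zpow_neg] at h3
    exact h3
  have h4 := Gr_left μ (Lft X.toFuchs κ) (X.c ^ k) (a⁻¹ * x) y
  rw [h2] at h4
  rw [h1, hy, h4]

end Pool.Agent.Helper12.GM
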