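import Pool.Agent.Helper12.GM.LibF

/-!
# Module UPPER : orbit counting, upper bound
-/

open scoped ENNReal UpperHalfPlane MatrixGroups Topology
open UpperHalfPlane Real Filter

namespace Pool.Agent.Helper12.GM

theorem upper_exp3 : 9 < Real.exp 3 := by
  have h := Real.exp_one_gt_d9
  have e : Real.exp 3 = Real.exp 1 ^ 3 := by rw [← Real.exp_nat_mul]; norm_num
  rw [e]
  have h1 : (2.7 : ℝ) < Real.exp 1 := by linarith
  have h2 : (2.7 : ℝ) ^ 3 < Real.exp 1 ^ 3 := pow_lt_pow_left₀ h1 (by norm_num) (by norm_num)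
  norm_num at h2
  linarith

/-- two points in the same cell -/
theorem upper_cell {z w : ℍ} {j k : ℤ} (hz1 : Real.exp j ≤ z.im) (hz2 : z.im < Real.exp (j + 1))
    (hw1 : Real.exp j ≤ w.im) (hw2 : w.im < Real.exp (j + 1))
    (hz3 : k * Real.exp j ≤ z.re) (hz4 : z.re < (k + 1) * Real.exp j)
    (hw3 : k * Real.exp j ≤ w.re) (hw4 : w.re < (k + 1) * Real.exp j) : dist z w ≤ 3 := by
  have hp : 0 < Real.exp j := Real.exp_pos _
  have he := Real.exp_one_gt_d9
  have he2 := Real.exp_one_lt_d9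
  rw [Real.exp_add] at hz2 hw2
  set E := Real.exp (j : ℝ) with hE
  set a := Real.exp 1 with ha
  have hcosh : Real.cosh (dist z w) ≤ 4 := by
    rw [cosh_dist', div_le_iff₀ (by have := z.im_pos; have := w.im_pos; positivity)]
    have h1 : (z.re - w.re) ^ 2 ≤ E ^ 2 := by
      apply sq_le_sq'
      · nlinarith
      · nlinarith
    have h2 : (z.im - w.im) ^ 2 ≤ (2 * E) ^ 2 := by
      apply sq_le_sq'
      · nlinarith
      · nlinarith
    have h3 : E ^ 2 ≤ z.im * w.im := by nlinarith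
    nlinarith
  by_contra hcon
  push Not at hcon
  have h4 : Real.cosh 3 < Real.cosh (dist z w) := by
    rw [Real.cosh_lt_cosh, abs_of_nonneg (by norm_num), abs_of_nonneg dist_nonneg]
    exact hcon
  have h5 : 4 < Real.cosh 3 := by
    rw [Real.cosh_eq]
    have := upper_exp3
    have : 0 < Real.exp (-3) := Real.exp_pos _
    linarith
  linarith

/-- vertical position -/
theorem upper_im {z : ℍ} {t : ℝ} (h : dist (I : ℍ) z ≤ t) : |Real.log z.im| ≤ t := by
  have h1 := dist_log_im_le (I : ℍ) z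
  rw [Real.dist_eq] at h1
  simp only [I_im, Real.log_one, zero_sub, abs_neg] at h1
  exact h1.trans h

/-- horizontal position -/
theorem upper_re {z : ℍ} {t : ℝ} (h : dist (I : ℍ) z ≤ t) (ht : 0 ≤ t) :
    z.re ^ 2 ≤ 2 * z.im * Real.exp t := by
  have hz := z.im_pos
  have h1 : Real.cosh (dist (I : ℍ) z) ≤ Real.exp t := by
    have h2 : Real.cosh (dist (I : ℍ) z) ≤ Real.cosh t := by
      rw [Real.cosh_le_cosh, abs_of_nonneg dist_nonneg, abs_of_nonneg ht]
      exact h
    refine h2.trans ?_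
    rw [Real.cosh_eq]
    have : Real.exp (-t) ≤ Real.exp t := Real.exp_le_exp.2 (by linarith)
    linarith
  rw [cosh_dist', div_le_iff₀ (by simp only [I_im]; positivity)] at h1
  simp only [I_im, I_re] at h1
  nlinarith

theorem upper_geom (n : ℕ) : ∑ i ∈ Finset.range (2 * n + 1), Real.exp ((i : ℝ) / 2) ≤
    3 * Real.exp n := by
  have h1 : (1.6 : ℝ) < Real.exp (1 / 2) := by
    have h := Real.exp_one_gt_d9
    have e : Real.exp 1 = Real.exp (1 / 2) ^ 2 := by
      rw [← Real.exp_nat_mul]; norm_num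
    have hp : 0 < Real.exp (1 / 2) := Real.exp_pos _
    nlinarith
  have h2 : ∀ i : ℕ, Real.exp ((i : ℝ) / 2) = Real.exp (1 / 2) ^ i := by
    intro i
    rw [← Real.exp_nat_mul]
    congr 1
    ring
  simp only [h2]
  rw [geom_sum_eq (by linarith)]
  rw [div_le_iff₀ (by linarith)]
  have h3 : Real.exp (1 / 2) ^ (2 * n + 1) = Real.exp (1 / 2) * Real.exp n := by
    rw [pow_succ, ← Real.exp_nat_mul, mul_comm]
    congr 2
    push_cast
    ring
  rw [h3]
  have h4 : 0 < Real.exp (n : ℝ) := Real.exp_pos _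
  nlinarith

/-- the bound at integral radius -/
theorem upper_nat {Γ : Type} [Group Γ] (X : Fuchs Γ) (n : ℕ) :
    ({g | X.L g ≤ n}.ncard : ℝ) ≤ ({g | X.L g ≤ 3}.ncard : ℝ) * (27 * Real.exp n) := by
  classical
  have hfin : {g | X.L g ≤ n}.Finite := X.disc n
  have hfin3 : {g | X.L g ≤ 3}.Finite := X.disc 3
  let z : Γ → ℍ := fun g => X.M g • (I : ℍ)
  let jj : Γ → ℤ := fun g => ⌊Real.log (z g).im⌋
  let kk : Γ → ℤ := fun g => ⌊(z g).re / Real.exp (jj g)⌋
  let f : Γ → Σ _ : ℕ, ℤ := fun g => ⟨((n : ℤ) - jj g).toNat, kk g⟩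
  let K : ℕ → ℕ := fun i => ⌊3 * Real.exp ((i : ℝ) / 2)⌋₊ + 1
  let F : Finset (Σ _ : ℕ, ℤ) :=
    (Finset.range (2 * n + 1)).sigma (fun i => Finset.Icc (-(K i : ℤ)) (K i))
  have hjj : ∀ g, X.L g ≤ n → -(n : ℤ) ≤ jj g ∧ jj g ≤ n := by
    intro g hg
    have h1 := abs_le.1 (upper_im (z := z g) hg)
    constructor
    · apply Int.le_floor.2
      push_cast
      exact h1.1
    · have h2 : (jj g : ℝ) ≤ n := (Int.floor_le _).trans h1.2
      exact_mod_cast h2
  have himl : ∀ g, Real.exp (jj g) ≤ (z g).im := by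
    intro g
    have := Int.floor_le (Real.log (z g).im)
    rw [← Real.exp_log (z g).im_pos]
    exact Real.exp_le_exp.2 this
  have himu : ∀ g, (z g).im < Real.exp ((jj g : ℝ) + 1) := by
    intro g
    have := Int.lt_floor_add_one (Real.log (z g).im)
    rw [← Real.exp_log (z g).im_pos]
    exact Real.exp_lt_exp.2 this
  have hrel : ∀ g, (kk g : ℝ) * Real.exp (jj g) ≤ (z g).re := by
    intro g
    have := Int.floor_le ((z g).re / Real.exp (jj g))
    rwa [le_div_iff₀ (Real.exp_pos _)] at this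
  have hreu : ∀ g, (z g).re < ((kk g : ℝ) + 1) * Real.exp (jj g) := by
    intro g
    have := Int.lt_floor_add_one ((z g).re / Real.exp (jj g))
    rwa [div_lt_iff₀ (Real.exp_pos _)] at this
  have hmaps : ∀ g ∈ hfin.toFinset, f g ∈ F := by
    intro g hg
    rw [Set.Finite.mem_toFinset] at hg
    have hg' : X.L g ≤ n := hg
    obtain ⟨h1, h2⟩ := hjj g hg'
    refine Finset.mem_sigma.2 ⟨?_, ?_⟩
    · show ((n : ℤ) - jj g).toNat ∈ Finset.range (2 * n + 1)
      rw [Finset.mem_range]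
      omega
    · show kk g ∈ Finset.Icc (-(K ((n : ℤ) - jj g).toNat : ℤ)) (K ((n : ℤ) - jj g).toNat)
      have hi : ((((n : ℤ) - jj g).toNat : ℕ) : ℝ) = (n : ℝ) - jj g := by
        have : (((n : ℤ) - jj g).toNat : ℤ) = (n : ℤ) - jj g := Int.toNat_of_nonneg (by omega)
        exact_mod_cast this
      set i := ((n : ℤ) - jj g).toNat with hidef
      have hre := upper_re (z := z g) (t := n) hg' (by positivity)
      have hx : |(z g).re / Real.exp (jj g)| ≤ 3 * Real.exp ((i : ℝ) / 2) := by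
        apply abs_le_of_sq_le_sq _ (by positivity)
        rw [div_pow, div_le_iff₀ (by positivity)]
        refine hre.trans ?_
        have e1 : (3 * Real.exp ((i : ℝ) / 2)) ^ 2 * Real.exp (jj g) ^ 2 =
            9 * (Real.exp (n : ℝ) * Real.exp (jj g)) := by
          rw [mul_pow, ← Real.exp_nat_mul, ← Real.exp_nat_mul, mul_assoc, ← Real.exp_add,
            ← Real.exp_add, hi]
          norm_num
          ring
        rw [e1]
        have h5 := himu g
        rw [Real.exp_add] at h5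
        have h6 := Real.exp_one_lt_d9
        have h7 : 0 < Real.exp (n : ℝ) := Real.exp_pos _
        have h8 : 0 < Real.exp (jj g : ℝ) := Real.exp_pos _
        have h9 : (z g).im ≤ Real.exp (jj g) * 3 := by nlinarith
        nlinarith
      have hx' := abs_le.1 hx
      rw [Finset.mem_Icc]
      have hfl := Nat.lt_floor_add_one (3 * Real.exp ((i : ℝ) / 2))
      have hKi : (K i : ℝ) = (⌊3 * Real.exp ((i : ℝ) / 2)⌋₊ : ℝ) + 1 := by
        show ((⌊3 * Real.exp ((i : ℝ) / 2)⌋₊ + 1 : ℕ) : ℝ) = _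
        push_cast
        ring
      constructor
      · apply Int.le_floor.2
        push_cast
        rw [hKi]
        linarith
      · have : (kk g : ℝ) ≤ (K i : ℝ) := by
          rw [hKi]
          exact (Int.floor_le _).trans (hx'.2.trans hfl.le)
        exact_mod_cast this
  have hfib : ∀ b ∈ F, (hfin.toFinset.filter (fun a => f a = b)).card ≤
      {g | X.L g ≤ 3}.ncard := by
    intro b _
    rcases (hfin.toFinset.filter (fun a => f a = b)).eq_empty_or_nonempty with he | ⟨g0, hg0⟩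
    · rw [he]; simp
    rw [Set.ncard_eq_toFinset_card _ hfin3]
    rw [Finset.mem_filter, Set.Finite.mem_toFinset] at hg0
    obtain ⟨hg0L, hg0b⟩ := hg0
    have hg0L' : X.L g0 ≤ n := hg0L
    refine Finset.card_le_card_of_injOn (fun g => g0⁻¹ * g) ?_ ?_
    · intro g hg
      have hg1 := Finset.mem_filter.1 hg
      obtain ⟨hgL, hgb⟩ := hg1
      rw [Set.Finite.mem_toFinset] at hgL
      have hgL' : X.L g ≤ n := hgL
      have hff : f g0 = f g := by rw [hg0b, hgb]
      have e1 : ((n : ℤ) - jj g0).toNat = ((n : ℤ) - jj g).toNat := congrArg Sigma.fst hff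
      have e2 : kk g0 = kk g := by
        have := congrArg Sigma.snd (Sigma.eta (f g0) ▸ hff : f g0 = f g)
        exact this
      have hj0 := hjj g0 hg0L'
      have hj1 := hjj g hgL'
      have e3 : jj g0 = jj g := by omega
      show g0⁻¹ * g ∈ hfin3.toFinset
      rw [Set.Finite.mem_toFinset]
      show X.L (g0⁻¹ * g) ≤ 3
      rw [← X.dist_orbit]
      refine upper_cell (j := jj g) (k := kk g) ?_ ?_ (himl g) (himu g) ?_ ?_ (hrel g) (hreu g)
      · rw [← e3]; exact himl g0
      · rw [← e3]; exact himu g0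
      · rw [← e3, ← e2]; exact hrel g0
      · rw [← e3, ← e2]; exact hreu g0
    · intro g _ g' _ h
      exact mul_left_cancel h
  have hmain := Finset.card_le_mul_card_image_of_maps_to hmaps _ hfib
  have hF : (F.card : ℝ) ≤ 27 * Real.exp n := by
    have e0 : F.card = ∑ i ∈ Finset.range (2 * n + 1), (2 * K i + 1) := by
      show ((Finset.range (2 * n + 1)).sigma (fun i => Finset.Icc (-(K i : ℤ)) (K i))).card = _
      rw [Finset.card_sigma]
      refine Finset.sum_congr rfl fun i _ => ?_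
      rw [Int.card_Icc]
      omega
    rw [e0]
    push_cast
    calc ∑ i ∈ Finset.range (2 * n + 1), (2 * (K i : ℝ) + 1)
        ≤ ∑ i ∈ Finset.range (2 * n + 1), 9 * Real.exp ((i : ℝ) / 2) := by
          refine Finset.sum_le_sum fun i _ => ?_
          have hKi : (K i : ℝ) = (⌊3 * Real.exp ((i : ℝ) / 2)⌋₊ : ℝ) + 1 := by
            show ((⌊3 * Real.exp ((i : ℝ) / 2)⌋₊ + 1 : ℕ) : ℝ) = _
            push_cast
            ring
          have h1 : (⌊3 * Real.exp ((i : ℝ) / 2)⌋₊ : ℝ) ≤ 3 * Real.exp ((i : ℝ) / 2) :=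
            Nat.floor_le (by positivity)
          have h2 : 1 ≤ Real.exp ((i : ℝ) / 2) := Real.one_le_exp (by positivity)
          rw [hKi]
          linarith
      _ = 9 * ∑ i ∈ Finset.range (2 * n + 1), Real.exp ((i : ℝ) / 2) := by rw [Finset.mul_sum]
      _ ≤ 27 * Real.exp n := by
          have := upper_geom n
          linarith
  have hS : {g | X.L g ≤ n}.ncard = hfin.toFinset.card := Set.ncard_eq_toFinset_card _ hfin
  rw [hS]
  calc (hfin.toFinset.card : ℝ) ≤ (({g | X.L g ≤ 3}.ncard * F.card : ℕ) : ℝ) := by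
        exact_mod_cast hmain
    _ = ({g | X.L g ≤ 3}.ncard : ℝ) * (F.card : ℝ) := by push_cast; ring
    _ ≤ _ := mul_le_mul_of_nonneg_left hF (by positivity)

theorem st_UPPER : ST_UPPER := by
  intro Γ _ X
  refine ⟨({g | X.L g ≤ 3}.ncard : ℝ) * (27 * Real.exp 1) + 1, ?_, fun t ht => ?_⟩
  · have : 0 ≤ ({g | X.L g ≤ 3}.ncard : ℝ) * (27 * Real.exp 1) := by positivity
    linarith
  · have hn := Nat.le_ceil t
    have hn2 := Nat.ceil_lt_add_one ht
    have h1 : ({g | X.L g ≤ t}.ncard : ℝ) ≤ ({g | X.L g ≤ (⌈t⌉₊ : ℝ)}.ncard : ℝ) := by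
      exact_mod_cast Set.ncard_le_ncard (fun g hg => le_trans hg hn) (X.disc _)
    have h2 := upper_nat X ⌈t⌉₊
    have h3 : Real.exp (⌈t⌉₊ : ℝ) ≤ Real.exp 1 * Real.exp t := by
      rw [← Real.exp_add]
      exact Real.exp_le_exp.2 (by linarith)
    have h4 : 0 < Real.exp t := Real.exp_pos t
    have h5 : (0 : ℝ) ≤ ({g | X.L g ≤ 3}.ncard : ℝ) := by positivity
    calc ({g | X.L g ≤ t}.ncard : ℝ) ≤ ({g | X.L g ≤ 3}.ncard : ℝ) * (27 * Real.exp ⌈t⌉₊) :=
          h1.trans h2
      _ ≤ ({g | X.L g ≤ 3}.ncard : ℝ) * (27 * (Real.exp 1 * Real.exp t)) := by gcongr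
      _ ≤ _ := by nlinarith

end Pool.Agent.Helper12.GM
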